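import Pool.Agent.Helper61.CAR.GoalsQ

/-!
# Project CAR (MP_d97caa_an), packet MN

The norm of a scalar matrix is bounded by a bound of its sesquilinear form.
-/

set_option autoImplicit false

open scoped ComplexOrder ComplexConjugate InnerProductSpace

namespace Pool.Agent.Helper18.CAR

open Pool.Agent.Helper61.CAR Pool.Agent.Helper34.CAR

open CStarModule in
theorem mn : S_MN := by
  intro J _ _ a c hc h
  refine CStarMatrix.norm_le_of_forall_inner_le (M := a) (C := ⟨c, hc⟩) fun v w => ?_
  have hv : ‖v‖ = Real.sqrt (∑ p, ‖conj (v p)‖ ^ 2) := by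
    rw [WithCStarModule.pi_norm]
    congr 1
    have h1 : ∑ i, (inner ℂ (v i) (v i) : ℂ) = ((∑ p, ‖conj (v p)‖ ^ 2 : ℝ) : ℂ) := by
      push_cast
      refine Finset.sum_congr rfl fun i _ => ?_
      rw [WithCStarModule.inner_def]
      simp [Complex.mul_conj, Complex.normSq_eq_norm_sq]
    rw [h1, Complex.norm_real, Real.norm_of_nonneg (Finset.sum_nonneg fun _ _ => sq_nonneg _)]
  have hw : ‖w‖ = Real.sqrt (∑ p, ‖conj (w p)‖ ^ 2) := by
    rw [WithCStarModule.pi_norm]
    congr 1
    have h1 : ∑ i, (inner ℂ (w i) (w i) : ℂ) = ((∑ p, ‖conj (w p)‖ ^ 2 : ℝ) : ℂ) := by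
      push_cast
      refine Finset.sum_congr rfl fun i _ => ?_
      rw [WithCStarModule.inner_def]
      simp [Complex.mul_conj, Complex.normSq_eq_norm_sq]
    rw [h1, Complex.norm_real, Real.norm_of_nonneg (Finset.sum_nonneg fun _ _ => sq_nonneg _)]
  have key := h (fun p => conj (v p)) (fun q => conj (w q))
  have hin : (inner ℂ w (CStarMatrix.toCLM a v) : ℂ) =
      ∑ p, ∑ q, conj (conj (v p)) * a p q * conj (w q) := by
    rw [WithCStarModule.pi_inner, CStarMatrix.toCLM_apply_eq_sum, Finset.sum_comm]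
    refine Finset.sum_congr rfl fun q _ => ?_
    rw [WithCStarModule.inner_def]
    simp [Finset.sum_mul]
  rw [hin, hv, hw]
  exact key

end Pool.Agent.Helper18.CAR
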