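import Pool.Agent.Helper34.CAR.GoalsB

/-!
# Project CAR (MP_d97caa_an), packet SEPL

Separability of matrix algebras, of the limit algebra and of its subalgebras.
-/

set_option autoImplicit false

open scoped ComplexOrder

namespace Pool.Agent.Helper18.CAR

open Pool.Agent.Helper34.CAR TopologicalSpace

/-- Matrices over a separable algebra are separable. -/
theorem mt_separable (S B : Type) [Fintype S] [DecidableEq S] [CStarAlgebra B]
    [SeparableSpace B] : SeparableSpace (Mt S B) := by
  let f : (S → S → B) →+ Mt S B :=
    { toFun := fun g => Mt.of g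
      map_zero' := by ext i j; rfl
      map_add' := fun g h => by ext i j; rfl }
  have hcont : Continuous f := by
    refine AddMonoidHomClass.continuous_of_bound f ((Fintype.card S : ℝ) * Fintype.card S) fun g => ?_
    refine (Mt.norm_le_sum (f g)).trans ?_
    have h1 : ∀ i j, ‖f g i j‖ ≤ ‖g‖ := fun i j =>
      (norm_le_pi_norm (g i) j).trans (norm_le_pi_norm g i)
    calc ∑ i, ∑ j, ‖f g i j‖ ≤ ∑ _i : S, ∑ _j : S, ‖g‖ :=
          Finset.sum_le_sum fun i _ => Finset.sum_le_sum fun j _ => h1 i j
      _ = (Fintype.card S : ℝ) * Fintype.card S * ‖g‖ := by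
          simp [Finset.sum_const, nsmul_eq_mul, mul_assoc]
  have hsurj : Function.Surjective f := fun a => ⟨fun i j => a i j, by ext i j; rfl⟩
  exact hsurj.denseRange.separableSpace hcont

theorem sepl : S_SEPL := by
  intro B _ _ θ s L _ ι hd
  have hL : SeparableSpace L := by
    have h1 : ∀ i, IsSeparable (Set.range (ι i)) := fun i => by
      have := mt_separable (s.S i) B
      refine isSeparable_range (f := ι i) ?_
      refine AddMonoidHomClass.continuous_of_bound (ι i) 1 fun a => ?_
      rw [one_mul]
      exact NonUnitalStarAlgHom.norm_apply_le (ι i) a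
    have h2 : IsSeparable (Set.univ : Set L) := by
      rw [← hd.closure_eq]
      exact (IsSeparable.iUnion h1).closure
    exact isSeparable_univ_iff.1 h2
  refine ⟨hL, fun H _ j hj => ?_⟩
  have : SecondCountableTopology L := UniformSpace.secondCountable_of_separable L
  have hiso : Isometry j := NonUnitalStarAlgHom.isometry j hj
  have : SecondCountableTopology H := hiso.isEmbedding.isInducing.secondCountableTopology
  infer_instance

end Pool.Agent.Helper18.CAR
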